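import Pool.Agent.W315.LB.Stm
import Pool.Agent.H76R2.TY.ContrPet
import Pool.Agent.H76R2.TY.ConnSub

/-!
# LB3: minors with odd branch sets in contractions and subgraphs
-/

set_option autoImplicit false

namespace Pool.Agent.W315.LB

open Finset H76FC H76TX H76TY

theorem oddMinor_trans {W A B : Type} [DecidableEq B] (K : SimpleGraph W) (H : SimpleGraph A)
    (G : SimpleGraph B) (g : A → Finset B)
    (hdisj : ∀ x y, x ≠ y → Disjoint (g x) (g y)) (hoddg : ∀ x, Odd (g x).card)
    (hconn : ∀ x, (G.induce (g x : Set B)).Connected)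
    (hadj : ∀ x y, H.Adj x y → ∃ a ∈ g x, ∃ b ∈ g y, G.Adj a b) (h : OddMinor K H) :
    OddMinor K G := by
  obtain ⟨f, h1, h2, h3, h4⟩ := h
  refine ⟨fun s => (f s).biUnion g, ?_, ?_, ?_, ?_⟩
  · intro p q hpq
    rw [Finset.disjoint_left]
    intro b hb hb'
    rw [Finset.mem_biUnion] at hb hb'
    obtain ⟨x, hx, hbx⟩ := hb
    obtain ⟨y, hy, hby⟩ := hb'
    by_cases hxy : x = y
    · subst hxy
      exact Finset.disjoint_left.1 (h1 p q hpq) hx hy
    · exact Finset.disjoint_left.1 (hdisj x y hxy) hbx hby
  · intro a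
    rw [Finset.card_biUnion (fun x _ y _ hxy => hdisj x y hxy)]
    rw [Finset.odd_sum_iff_odd_card_odd]
    rw [Finset.filter_true_of_mem (fun x _ => hoddg x)]
    exact h2 a
  · intro p
    have h5 := y12_conn H G (fun x => (g x : Set B)) hconn
      (fun x y hxy => by
        obtain ⟨a, ha, b, hb, hab⟩ := hadj x y hxy
        exact ⟨a, ha, b, hb, hab⟩) (f p : Set A) (h3 p)
    have h6 : {b | ∃ x ∈ (f p : Set A), b ∈ (g x : Set B)} = (((f p).biUnion g : Finset B) : Set B) := by
      ext b
      simp
    rw [h6] at h5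
    exact h5
  · intro p q hpq
    obtain ⟨x, hx, y, hy, hxy⟩ := h4 p q hpq
    obtain ⟨a, ha, b, hb, hab⟩ := hadj x y hxy
    exact ⟨a, Finset.mem_biUnion.2 ⟨x, hx, ha⟩, b, Finset.mem_biUnion.2 ⟨y, hy, hb⟩, hab⟩

/-- minors in supergraphs -/
theorem oddMinor_sub {W A B : Type} (K : SimpleGraph W) (H : SimpleGraph A)
    (G : SimpleGraph B) (i : A → B) (hi : Function.Injective i)
    (hadj : ∀ x y, H.Adj x y → G.Adj (i x) (i y)) (h : OddMinor K H) :
    OddMinor K G := by
  classical
  refine oddMinor_trans K H G (fun x => {i x}) ?_ ?_ ?_ ?_ h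
  · intro x y hxy
    rw [Finset.disjoint_singleton]
    exact fun e => hxy (hi e)
  · intro x
    simp
  · intro x
    rw [Finset.coe_singleton]
    exact (conn B G).1 _
  · intro x y hxy
    exact ⟨i x, Finset.mem_singleton_self _, i y, Finset.mem_singleton_self _, hadj x y hxy⟩

theorem key {W U U' K : Type} [Fintype U'] [DecidableEq K] (H : SimpleGraph W)
    (i : U → K) (j : U' → K)
    (hi : Function.Injective i) (hj : Function.Injective j) (hij : ∀ u v, i u ≠ j v)
    (p : K → K → ℕ)
    (hc : (gr (fun u v => p (j u) (j v))).Connected) (hodd : Odd (Fintype.card U'))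
    (h : OddMinor H (gr (T1.contr (fun u v => p (i u) (i v)) (fun u => ∑ v, p (i u) (j v))))) :
    OddMinor H (gr p) := by
  have hsum : ∀ u, 0 < ∑ v, p (i u) (j v) → ∃ v, (gr p).Adj (i u) (j v) := by
    intro u hu
    by_contra hcon
    push Not at hcon
    have : ∑ v, p (i u) (j v) = 0 := by
      apply Finset.sum_eq_zero
      intro v _
      by_contra hne
      apply hcon v
      rw [gr, SimpleGraph.fromRel_adj]
      exact ⟨hij u v, Or.inl (Nat.pos_of_ne_zero hne)⟩
    omega
  refine oddMinor_trans H
    (gr (T1.contr (fun u v => p (i u) (i v)) (fun u => ∑ v, p (i u) (j v))))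
    (gr p) (fun x => match x with
      | some u => {i u}
      | none => univ.image j) ?_ ?_ ?_ ?_ h
  · rintro (_ | u) (_ | v) hne
    · exact absurd rfl hne
    · show Disjoint (univ.image j) {i v}
      rw [Finset.disjoint_singleton_right, Finset.mem_image]
      rintro ⟨w, _, hw⟩
      exact hij v w hw.symm
    · show Disjoint {i u} (univ.image j)
      rw [Finset.disjoint_singleton_left, Finset.mem_image]
      rintro ⟨w, _, hw⟩
      exact hij u w hw.symm
    · show Disjoint ({i u} : Finset K) {i v}
      rw [Finset.disjoint_singleton]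
      intro huv
      exact hne (by rw [hi huv])
  · rintro (_ | u)
    · show Odd (univ.image j).card
      rw [Finset.card_image_of_injective _ hj, Finset.card_univ]
      exact hodd
    · show Odd ({i u} : Finset K).card
      simp
  · rintro (_ | u)
    · show ((gr p).induce ((univ.image j : Finset K) : Set K)).Connected
      have he : ((univ.image j : Finset K) : Set K) = Set.range j := by
        ext x; simp
      rw [he]
      let φ : gr (fun u v => p (j u) (j v)) →g (gr p).induce (Set.range j) :=
        { toFun := fun u => ⟨j u, u, rfl⟩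
          map_rel' := by
            intro a b hab
            rw [gr, SimpleGraph.fromRel_adj] at hab
            show (gr p).Adj (j a) (j b)
            rw [gr, SimpleGraph.fromRel_adj]
            exact ⟨fun e => hab.1 (hj e), hab.2⟩ }
      obtain ⟨u0⟩ := hc.nonempty
      have hne : Nonempty (Set.range j) := ⟨⟨j u0, u0, rfl⟩⟩
      refine SimpleGraph.Connected.mk ?_
      rintro ⟨_, u, rfl⟩ ⟨_, v, rfl⟩
      exact (hc.preconnected u v).map φ
    · show ((gr p).induce (({i u} : Finset K) : Set K)).Connected
      rw [Finset.coe_singleton]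
      exact (conn K (gr p)).1 _
  · rintro (_ | u) (_ | v) hadj
    · exact absurd rfl hadj.ne
    · rw [gr, SimpleGraph.fromRel_adj] at hadj
      have h1 : 0 < ∑ w, p (i v) (j w) := by
        rcases hadj.2 with h | h
        · exact h
        · exact h
      obtain ⟨w, hw⟩ := hsum v h1
      exact ⟨j w, Finset.mem_image_of_mem _ (Finset.mem_univ _), i v,
        Finset.mem_singleton_self _, hw.symm⟩
    · rw [gr, SimpleGraph.fromRel_adj] at hadj
      have h1 : 0 < ∑ w, p (i u) (j w) := by
        rcases hadj.2 with h | h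
        · exact h
        · exact h
      obtain ⟨w, hw⟩ := hsum u h1
      exact ⟨i u, Finset.mem_singleton_self _, j w,
        Finset.mem_image_of_mem _ (Finset.mem_univ _), hw⟩
    · rw [gr, SimpleGraph.fromRel_adj] at hadj
      refine ⟨i u, Finset.mem_singleton_self _, i v, Finset.mem_singleton_self _, ?_⟩
      rw [gr, SimpleGraph.fromRel_adj]
      refine ⟨fun e => hadj.1 (by rw [hi e]), ?_⟩
      rcases hadj.2 with h | h
      · exact Or.inl h
      · exact Or.inr h

theorem contrOdd : S_contrOdd := by
  intro W U U' _ _ H p hs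
  classical
  constructor
  · intro ho hc h
    exact key H Sum.inl Sum.inr Sum.inl_injective Sum.inr_injective
      (fun u v => Sum.inl_ne_inr) p hc ho h
  · intro ho hc h
    exact key H Sum.inr Sum.inl Sum.inr_injective Sum.inl_injective
      (fun u v => Sum.inr_ne_inl) p hc ho h

end Pool.Agent.W315.LB
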