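import Pool.Agent.W315.LB.Main
import Pool.Agent.H76R2.TY.Final13
import Pool.Agent.H76R2.TY.Remove12
import Pool.Agent.H76R2.TY.Pair
import Pool.Agent.H76R2.TY.Unc12
import Pool.Agent.H76R2.TY.EXY
import Pool.Agent.H76R2.TY.Indep2
import Pool.Agent.H76R2.TY.Model
import Pool.Agent.H76R2.TY.ConnSub
import Pool.Agent.H76R2.TY.Tight2
import Pool.Agent.H76R2.TY.ContrPet
import Pool.Agent.H76R2.TY.Y13
import Pool.Agent.H76R2.TX.Remove
import Pool.Agent.H76R2.TX.Add
import Pool.Agent.H76R2.TX.Uncross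
import Pool.Agent.H76R2.TX.Indep
import Pool.Agent.H76R2.TX.Pentagon
import Pool.Agent.H76R2.TX.Switch
import Pool.Agent.H76R2.TW.Pm
import Pool.Agent.H76R2.TW.Eight
import Pool.Agent.H76R2.TW.Cone
import Pool.Agent.H76R2.TW.Uncone
import Pool.Agent.H76R2.FC.Basic
import Pool.Agent.H76R2.FC.Enum
import Pool.Agent.H76R2.FC.Dist
import Pool.Agent.H76R2.FC.Glue
import Pool.Agent.H76R2.FC.Tight
import Pool.Agent.H76R2.TW.Hilbert
import Pool.Agent.H76R2.TW.Num
import Pool.Agent.H76R2.TW.ClosA
import Pool.Agent.H76R2.TW.ClosB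
import Pool.Agent.H76R2.TW.Del
import Pool.Agent.H76R2.TW.Glue3
import Pool.Agent.H76R2.TW.Restr
import Pool.Agent.H76R2.TW.Bip
import Pool.Agent.H76R2.TW.BagL
import Pool.Agent.H76R2.TW.Tw3
import Pool.Agent.H840R6.Inter

set_option autoImplicit false

namespace Pool.Agent.W315.LB

open Finset H76FC H76TX H76TY

theorem eight' : H76TW.S_eight :=
  H76TW.eight H76TW.pm transport (tight enum distribute matchFib glue)

theorem thirteen : ∀ n : ℕ, n ≤ 13 → ∀ (V : Type) [Fintype V] [DecidableEq V],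
    Fintype.card V = n → ∀ (r : ℕ) (p : V → V → ℕ), RGraph r p → ¬ PetMinor (gr p) →
    Cover 1 r p :=
  cover13 transport H76TW.pm eight' remove
      remove12 addback' (uncross badCompl) badCompl indep pentagon switch1 switch2 pair uncross12
      eXY indep2 model conn sub tight2 contrPet connSide (disc sub)

/-- the classes of graphs that are settled -/
def Known (W : Type) [Fintype W] (H : SimpleGraph W) : Prop :=
  (Fintype.card W ≤ 13 ∧ ¬ PetMinor H) ∨ H76TW.Sum5 H ∨
  ∃ c : W → Bool, ∀ a b a' b' : W, H.Adj a b → H.Adj a' b' → c a = c b → c a' = c b' →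
    c a = c a' → a = a' ∨ a = b' ∨ b = a' ∨ b = b'

theorem cover_known {V : Type} [Fintype V] [DecidableEq V] {r : ℕ} {p : V → V → ℕ}
    (hp : RGraph r p) (h : Known V (gr p)) : Cover 1 r p := by
  have hadj : ∀ u v, p u v ≠ 0 → (gr p).Adj u v := by
    intro u v huv
    refine Y13.adj_gr p u v ?_ (Nat.pos_of_ne_zero huv)
    rintro rfl
    exact huv (hp.loopless _)
  obtain ⟨h1, h2⟩ := H76TW.span V 1 r p hp
  rcases h with ⟨hc, hP⟩ | hS | ⟨c, hc⟩
  · exact thirteen _ hc V rfl r p hp hP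
  · obtain ⟨l, hl, hcov⟩ := H76TW.bagList V (gr p) hS
    apply h2
    have h5 := H76TW.main5_of H76TW.num H76TW.closA H76TW.closB H76TW.del H76TW.glue3 eight'
      H76TW.restr H76TW.bip V l r p univ hl h1 (fun u v huv => hcov u v (hadj u v huv))
    exact H76TW.col_congr h5 (one_mul r).symm (fun u v => (one_mul _).symm)
  · apply h2
    have h5 := H840R6.col_of_sides h1 c (by
      intro x y z w hxy hzw h3 h4 h5
      rcases hc x y z w (hadj _ _ hxy) (hadj _ _ hzw) h3 h4 h5 with h | h | h | h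
      · exact Or.inl (Or.inl h)
      · exact Or.inl (Or.inr h)
      · exact Or.inr (Or.inl h)
      · exact Or.inr (Or.inr h))
    exact H76TW.col_congr h5 (one_mul r).symm (fun u v => (one_mul _).symm)

/-- every integer vector in the cone of the perfect matchings is a nonnegative integer combination of
perfect matchings -/
def Decomp {V E : Type} [Fintype E] [DecidableEq E] (ends : E → Sym2 V) : Prop :=
  ∀ x : E → ℤ, (∃ c : Finset E → ℝ, (∀ M, 0 ≤ c M) ∧ (∀ M, c M ≠ 0 → H76TW.PMatch ends M) ∧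
      ∀ e, (x e : ℝ) = ∑ M : Finset E, if e ∈ M then c M else 0) →
    ∃ n : Finset E → ℕ, (∀ M, n M ≠ 0 → H76TW.PMatch ends M) ∧
      ∀ e, x e = ∑ M : Finset E, if e ∈ M then (n M : ℤ) else 0

theorem decomp_of (Q : (V : Type) → SimpleGraph V → Prop)
    (hQ : ∀ (V : Type) (G H : SimpleGraph V), (∀ x y, H.Adj x y → G.Adj x y) → Q V G → Q V H)
    (hmain : ∀ (V : Type) [Fintype V] [DecidableEq V] (r : ℕ) (p : V → V → ℕ),
      RGraph r p → Q V (gr p) → Cover 1 r p)
    (V E : Type) [Fintype V] [Fintype E] [DecidableEq E] (ends : E → Sym2 V)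
    (hG : Q V (SimpleGraph.fromEdgeSet (Set.range ends))) : Decomp ends := by
  classical
  intro x hx
  rcases isEmpty_or_nonempty V with hV' | hV'
  · have hE : IsEmpty E := ⟨fun e => by
      induction h : ends e using Sym2.inductionOn with
      | hf a b => exact hV'.elim a⟩
    exact ⟨fun _ => 0, fun M h => absurd rfl h, fun e => hE.elim e⟩
  obtain ⟨h0, hdiag, r, hrg⟩ := H76TW.cone V E ends x hx
  set q : V → V → ℕ := fun u v => if u = v then 0 else
    ∑ e ∈ univ.filter (fun e => ends e = s(u, v)), (x e).toNat with hq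
  have hR : RGraph r q := ⟨hrg.loopless, hrg.symm, fun v => hrg.reg v (Finset.mem_univ v),
    fun Z hZ => hrg.odd Z (Finset.subset_univ _) hZ⟩
  have hadj : ∀ u v, u ≠ v → 0 < q u v → ∃ e, ends e = s(u, v) := by
    intro u v huv h
    simp only [hq, if_neg huv] at h
    obtain ⟨e, he, _⟩ := Finset.exists_ne_zero_of_sum_ne_zero (Nat.pos_iff_ne_zero.1 h)
    exact ⟨e, (Finset.mem_filter.1 he).2⟩
  have hnp : Q V (gr q) := by
    refine hQ V _ _ ?_ hG
    intro a b hab
    unfold gr at hab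
    rw [SimpleGraph.fromRel_adj] at hab
    rw [SimpleGraph.fromEdgeSet_adj]
    refine ⟨?_, hab.1⟩
    rcases hab.2 with h1 | h1
    · obtain ⟨e, he⟩ := hadj a b hab.1 h1
      exact ⟨e, he⟩
    · obtain ⟨e, he⟩ := hadj b a (Ne.symm hab.1) h1
      exact ⟨e, by rw [he, Sym2.eq_swap]⟩
  obtain ⟨M, hM1, hM2⟩ := hmain V r q hR hnp
  have hcol : H76TW.Col (1 * r) q := ⟨M, fun i u => (hM1 i).1 u, fun u v _ => by rw [hM2, one_mul]⟩
  have hcol' : H76TW.Col r q := H76TW.col_congr hcol (one_mul r) (fun _ _ => rfl)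
  obtain ⟨n, hn1, hn2⟩ := H76TW.uncone V E ends (fun e => (x e).toNat) r
    (fun e he => by rw [hdiag e he]; rfl) hrg hcol'
  refine ⟨n, hn1, fun e => ?_⟩
  have h1 : (x e).toNat = ∑ M : Finset E, if e ∈ M then n M else 0 := hn2 e
  rw [← Int.toNat_of_nonneg (h0 e), h1, Nat.cast_sum]
  refine Finset.sum_congr rfl fun M _ => ?_
  split_ifs <;> simp

/-- part 1: all bricks are settled -/
theorem part1 (h3 : S_conn3) (hbi : S_bicrit)
    (V E : Type) [Fintype V] [Fintype E] [DecidableEq E] (ends : E → Sym2 V)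
    (hG : ∀ (W : Type) [Fintype W] (H : SimpleGraph W), Brick H →
      OddMinor H (SimpleGraph.fromEdgeSet (Set.range ends)) → Known W H) : Decomp ends := by
  refine decomp_of (fun V G => Good Known G) ?_ ?_ V E ends hG
  · intro V G H h hG
    exact good_sub id Function.injective_id h hG
  · intro V _ _ r p hp hg
    exact main h3 hbi transport H76TW.bip H76TW.span tight2 connSide Known
      (fun V _ _ r p hc hp => eight' V r p (by omega) hp)
      (fun V _ _ r p _ hp _ _ hk => Or.inl (cover_known hp hk)) _ V rfl r p hp hg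

theorem pet_oddMinor {W V : Type} (H : SimpleGraph W) (G : SimpleGraph V) (h : OddMinor H G)
    (hH : PetMinor H) : PetMinor G := by
  obtain ⟨f, h1, _, h3, h4⟩ := h
  refine y12_trans H G (fun x => (f x : Set V)) ?_ h3 ?_ hH
  · intro x y hxy
    exact Finset.disjoint_coe.2 (h1 x y hxy)
  · intro x y hxy
    obtain ⟨a, ha, b, hb, hab⟩ := h4 x y hxy
    exact ⟨a, ha, b, hb, hab⟩

/-- part 2: the reduction to large bricks -/
theorem part2 (h3 : S_conn3) (hbi : S_bicrit)
    (hlarge : ∀ (V : Type) [Fintype V] [DecidableEq V] (r : ℕ) (p : V → V → ℕ),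
      14 ≤ Fintype.card V → 1 ≤ r → RGraph r p → NoTight r p → Brick (gr p) →
      ¬ PetMinor (gr p) → ¬ Known V (gr p) → ∃ M, PMof p M ∧ RGraph (r - 1) (minus p M))
    (V E : Type) [Fintype V] [Fintype E] [DecidableEq E] (ends : E → Sym2 V)
    (hG : ¬ PetMinor (SimpleGraph.fromEdgeSet (Set.range ends))) : Decomp ends := by
  refine decomp_of (fun V G => Good (fun W _ H => ¬ PetMinor H) G) ?_ ?_ V E ends ?_
  · intro V G H h hG
    exact good_sub id Function.injective_id h hG
  · intro V _ _ r p hp hg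
    refine main h3 hbi transport H76TW.bip H76TW.span tight2 connSide _
      (fun V _ _ r p hc hp => eight' V r p (by omega) hp)
      (fun V _ _ r p hr hp hnt hb hk => ?_) _ V rfl r p hp hg
    by_cases hkn : Known V (gr p)
    · exact Or.inl (cover_known hp hkn)
    · refine Or.inr (hlarge V r p ?_ hr hp hnt hb hk hkn)
      by_contra hc
      exact hkn (Or.inl ⟨by omega, hk⟩)
  · intro W _ H _ hH hP
    exact hG (pet_oddMinor H _ hH hP)

end Pool.Agent.W315.LB
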