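import Pool.Agent.W315.LB.Contr
import Pool.Agent.H76R2.TY.Main13
import Pool.Agent.H76R2.TY.Y13
import Pool.Agent.H76R2.TW.Main5
import Pool.Agent.H76R2.TX.Add

/-!
# Reduction of Lovász's Hilbert basis conjecture to bricks
-/

set_option autoImplicit false

namespace Pool.Agent.W315.LB

open Finset H76FC H76TX H76TY

/-- every brick that is a minor with odd branch sets is in the class `K` -/
def Good (K : (W : Type) → [Fintype W] → SimpleGraph W → Prop) {V : Type} (G : SimpleGraph V) :
    Prop :=
  ∀ (W : Type) [Fintype W] (H : SimpleGraph W), Brick H → OddMinor H G → K W H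

theorem good_sub {K : (W : Type) → [Fintype W] → SimpleGraph W → Prop} {A B : Type}
    {H : SimpleGraph A} {G : SimpleGraph B} (i : A → B) (hi : Function.Injective i)
    (hadj : ∀ x y, H.Adj x y → G.Adj (i x) (i y)) (h : Good K G) : Good K H :=
  fun W _ L hL h0 => h W L hL (oddMinor_sub L H G i hi hadj h0)

theorem oddMinor_self {V : Type} (G : SimpleGraph V) : OddMinor G G := by
  refine ⟨fun x => {x}, ?_, ?_, ?_, ?_⟩
  · intro x y hxy
    rw [Finset.disjoint_singleton]
    exact hxy
  · intro x
    simp
  · intro x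
    rw [Finset.coe_singleton]
    exact (conn V G).1 _
  · intro x y hxy
    exact ⟨x, Finset.mem_singleton_self _, y, Finset.mem_singleton_self _, hxy⟩

/-- disconnected `r`-graphs; `Q` is closed under subgraphs -/
theorem disc' (Q : (V : Type) → SimpleGraph V → Prop)
    (hQ : ∀ (A B : Type) (H : SimpleGraph A) (G : SimpleGraph B) (i : A → B),
      Function.Injective i → (∀ x y, H.Adj x y → G.Adj (i x) (i y)) → Q B G → Q A H)
    {V : Type} [Fintype V] [DecidableEq V] (k r : ℕ) (p : V → V → ℕ)
    (hp : RGraph r p) (hcon : ¬ (gr p).Connected) (hpet : Q V (gr p))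
    (hind : ∀ (W : Type) [Fintype W] [DecidableEq W] (q : W → W → ℕ),
      Fintype.card W < Fintype.card V → RGraph r q → Q W (gr q) → Cover k r q) :
    Cover k r p := by
  classical
  rcases isEmpty_or_nonempty V with hV | hV
  · exact ⟨fun _ v => v, fun i => ⟨fun v => hV.elim v, fun v => hV.elim v⟩, fun u => hV.elim u⟩
  obtain ⟨S, ⟨a, ha⟩, ⟨b, hb⟩, hS⟩ := Y13.split _ hcon
  have hno : ∀ a b, S a → ¬ S b → p a b = 0 := by
    intro a b ha hb
    by_contra h
    have hab : a ≠ b := by rintro rfl; exact hb ha
    exact hb ((hS a b (Y13.adj_gr _ a b hab (Nat.pos_of_ne_zero h))).mp ha)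
  have pet : ∀ (W : Type) (f : W ↪ V), Q W (gr (fun a b => p (f a) (f b))) := by
    intro W f
    refine hQ W V _ _ f f.injective ?_ hpet
    intro a b hab
    have hne : f a ≠ f b := fun h => hab.ne (f.injective h)
    rcases Y13.gr_adj _ a b hab with h | h
    · exact Y13.adj_gr p _ _ hne h
    · exact Y13.adj_gr p _ _ hne (by rw [hp.symm]; exact h)
  obtain ⟨M1, hM1, hc1⟩ := hind {v // S v}
    (fun x y => p (Function.Embedding.subtype S x) (Function.Embedding.subtype S y))
    (Fintype.card_subtype_lt (x := b) hb)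
    (Y13.restr r p (Function.Embedding.subtype S) hp (by
      intro x v hv
      refine hno _ _ x.2 ?_
      intro h
      exact hv (Finset.mem_map.mpr ⟨⟨v, h⟩, Finset.mem_univ _, rfl⟩)))
    (pet _ _)
  obtain ⟨M2, hM2, hc2⟩ := hind {v // ¬ S v}
    (fun x y => p (Function.Embedding.subtype (fun v => ¬ S v) x)
      (Function.Embedding.subtype (fun v => ¬ S v) y))
    (Fintype.card_subtype_lt (x := a) (not_not.mpr ha))
    (Y13.restr r p (Function.Embedding.subtype fun v => ¬ S v) hp (by
      intro x v hv
      rw [hp.symm]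
      refine hno _ _ ?_ x.2
      by_contra h
      exact hv (Finset.mem_map.mpr ⟨⟨v, h⟩, Finset.mem_univ _, rfl⟩)))
    (pet _ _)
  refine ⟨fun i v => if h : S v then (M1 i ⟨v, h⟩).1 else (M2 i ⟨v, h⟩).1, ?_, ?_⟩
  · intro i
    constructor
    · intro v
      by_cases h : S v
      · simp only [dif_pos h, dif_pos (M1 i ⟨v, h⟩).2, Subtype.coe_eta, (hM1 i).1]
      · simp only [dif_neg h, dif_neg (M2 i ⟨v, h⟩).2, Subtype.coe_eta, (hM2 i).1]
    · intro v
      by_cases h : S v
      · simp only [dif_pos h]
        intro h'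
        exact (hM1 i).2 ⟨v, h⟩ (Subtype.ext h')
      · simp only [dif_neg h]
        intro h'
        exact (hM2 i).2 ⟨v, h⟩ (Subtype.ext h')
  · intro u v
    by_cases hu : S u
    · by_cases hv : S v
      · have := hc1 ⟨u, hu⟩ ⟨v, hv⟩
        simp only [Function.Embedding.subtype_apply] at this
        rw [← this]
        congr 1
        ext i
        simp only [Finset.mem_filter, Finset.mem_univ, true_and, dif_pos hu, Subtype.ext_iff]
      · rw [hno u v hu hv, mul_zero, Finset.card_eq_zero]
        ext i
        simp only [Finset.mem_filter, Finset.mem_univ, true_and, dif_pos hu, Finset.notMem_empty,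
          iff_false]
        intro h
        exact hv (h ▸ (M1 i ⟨u, hu⟩).2)
    · by_cases hv : S v
      · rw [hp.symm, hno v u hv hu, mul_zero, Finset.card_eq_zero]
        ext i
        simp only [Finset.mem_filter, Finset.mem_univ, true_and, dif_neg hu, Finset.notMem_empty,
          iff_false]
        intro h
        exact (M2 i ⟨u, hu⟩).2 (h ▸ hv)
      · have := hc2 ⟨u, hu⟩ ⟨v, hv⟩
        simp only [Function.Embedding.subtype_apply] at this
        rw [← this]
        congr 1
        ext i
        simp only [Finset.mem_filter, Finset.mem_univ, true_and, dif_neg hu, Subtype.ext_iff]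

/-- the reduction to bricks -/
theorem main (h3 : S_conn3) (hbi : S_bicrit) (hT : S_transport) (hbip : H76TW.S_bip)
    (hspan : H76TW.S_span) (htight2 : S_tight2) (hside : S_connSide)
    (K : (W : Type) → [Fintype W] → SimpleGraph W → Prop)
    (hsmall : ∀ (V : Type) [Fintype V] [DecidableEq V] (r : ℕ) (p : V → V → ℕ),
      Fintype.card V ≤ 4 → RGraph r p → Cover 1 r p)
    (hK : ∀ (V : Type) [Fintype V] [DecidableEq V] (r : ℕ) (p : V → V → ℕ),
      1 ≤ r → RGraph r p → NoTight r p → Brick (gr p) → K V (gr p) →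
      Cover 1 r p ∨ ∃ M, PMof p M ∧ RGraph (r - 1) (minus p M)) :
    ∀ n : ℕ, ∀ (V : Type) [Fintype V] [DecidableEq V], Fintype.card V = n →
      ∀ (r : ℕ) (p : V → V → ℕ), RGraph r p → Good K (gr p) → Cover 1 r p := by
  intro n
  induction n using Nat.strong_induction_on with
  | _ n ih =>
  intro V _ _ hV r
  have IH : ∀ (W : Type) [Fintype W] [DecidableEq W] (r : ℕ) (q : W → W → ℕ),
      Fintype.card W < Fintype.card V → RGraph r q → Good K (gr q) → Cover 1 r q := by
    intro W _ _ r q hW hq hnp
    exact ih (Fintype.card W) (by omega) W rfl r q hq hnp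
  clear ih
  induction r with
  | zero => intro p hp _; exact cover_zero hp
  | succ r ihr =>
  intro p hp hnp
  have hr : 1 ≤ r + 1 := by omega
  by_cases hc4 : Fintype.card V ≤ 4
  · exact hsmall V (r + 1) p hc4 hp
  have hVe : Even (Fintype.card V) := by
    by_contra hodd
    have := hp.odd univ (by simpa using hodd)
    simp [H76FC.cut] at this
  have hc6 : 6 ≤ Fintype.card V := by
    obtain ⟨m, hm⟩ := hVe
    omega
  by_cases hcon : (gr p).Connected
  swap
  · exact disc' (fun V G => Good K G) (fun A B H G i hi hadj h => good_sub i hi hadj h) 1 (r + 1) p hp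
      hcon hnp (fun W _ _ q hW hq hnq => IH W (r + 1) q hW hq hnq)
  by_cases hnt : NoTight (r + 1) p
  · rcases hbi V (r + 1) p hc6 hr hp hnt hcon with ⟨Z, hZ1, hZ2⟩ | hM
    · obtain ⟨h1, h2⟩ := hspan V 1 (r + 1) p hp
      apply h2
      have h5 := hbip V (r + 1) p univ Z h1 (Finset.subset_univ _) (by rw [Finset.card_univ]; exact hZ1)
        hZ2
      exact H76TW.col_congr h5 (one_mul _).symm (fun u v => (one_mul _).symm)
    · have hbrick : Brick (gr p) := by
        intro u v huv
        refine ⟨h3 V (r + 1) p hc6 hr hp hnt hcon u v huv, ?_⟩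
        obtain ⟨M, hM1, hM2, hM3⟩ := hM u v huv
        refine ⟨M, hM1, hM2, ?_⟩
        intro x hxu hxv
        refine Y13.adj_gr p x (M x) ?_ (hM3 x hxu hxv)
        intro h
        have h4 := hM3 x hxu hxv
        rw [← h, hp.loopless] at h4
        exact lt_irrefl 0 h4
      rcases hK V (r + 1) p hr hp hnt hbrick (hnp V (gr p) hbrick (oddMinor_self _)) with
        h | ⟨M, hM, hR⟩
      · exact h
      · refine addback' V 1 (r + 1) p M hr hp hM (ihr (minus p M) hR ?_)
        refine good_sub id Function.injective_id ?_ hnp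
        intro a b hab
        unfold gr at hab ⊢
        rw [SimpleGraph.fromRel_adj] at hab ⊢
        refine ⟨hab.1, ?_⟩
        unfold minus at hab
        simp only [id]
        rcases hab.2 with h1 | h1
        · left; omega
        · right; omega
  · -- tight cut
    unfold NoTight at hnt
    push Not at hnt
    obtain ⟨X, hX, hc, hX1, hX2⟩ := hnt
    have hadd' : X.card + Xᶜ.card = Fintype.card V := Finset.card_add_card_compl X
    have hodd' : Odd Xᶜ.card := by
      rw [← hadd'] at hVe
      exact (Nat.even_add'.1 hVe).1 hX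
    have hcardX : Fintype.card {v // v ∈ X} + Fintype.card {v // v ∉ X}
        = Fintype.card V := by
      rw [← Fintype.card_sum]
      exact Fintype.card_congr (Equiv.sumCompl (· ∈ X))
    have hcX : Fintype.card {v // v ∈ X} = X.card := by simp
    have hcX' : Fintype.card {v // v ∉ X} = Xᶜ.card := by
      rw [hcX] at hcardX
      omega
    have hX3 : 3 ≤ X.card := by obtain ⟨c, hc'⟩ := hX; omega
    have hX3' : 3 ≤ Xᶜ.card := by obtain ⟨c, hc'⟩ := hodd'; omega
    set e : V ≃ {v // v ∈ X} ⊕ {v // v ∉ X} := (Equiv.sumCompl (· ∈ X)).symm with he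
    set p' : {v // v ∈ X} ⊕ {v // v ∉ X} → {v // v ∈ X} ⊕ {v // v ∉ X} → ℕ :=
      fun a b => p (e.symm a) (e.symm b) with hp'
    have hpe : ∀ u v, p u v = p' (e u) (e v) := by intro u v; simp [hp']
    obtain ⟨h1, h2, h3'⟩ := hT V _ e p p' 1 (r + 1) hpe
    have hRp' := h1 hp
    have hgr : gr p' = (gr p).comap e.symm := gr_comap e p
    have hcon' : (gr p').Connected := by
      rw [hgr]
      exact (SimpleGraph.Iso.comap e.symm (gr p)).connected_iff.2 hcon
    have hnp' : Good K (gr p') := by
      refine good_sub e.symm e.symm.injective ?_ hnp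
      intro a b hab
      rw [hgr, SimpleGraph.comap_adj] at hab
      exact hab
    have hsum : ∑ u, ∑ v, p' (.inl u) (.inr v) = r + 1 := by
      rw [← hc]
      have hl : ∀ u : {v // v ∈ X}, e.symm (.inl u) = u.1 := fun u => rfl
      have hr : ∀ u : {v // v ∉ X}, e.symm (.inr u) = u.1 := fun u => rfl
      simp only [hp', hl, hr, cut]
      rw [← Finset.sum_coe_sort X]
      apply Finset.sum_congr rfl
      intro u _
      exact (Finset.sum_subtype (Xᶜ) (fun x => by simp) (fun v => p u.1 v)).symm
    have hO1 : Odd (Fintype.card {v // v ∈ X}) := by rw [hcX]; exact hX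
    have hO2 : Odd (Fintype.card {v // v ∉ X}) := by rw [hcX']; exact hodd'
    obtain ⟨hs1', hs2'⟩ := hside _ _ (r + 1) p' (by omega) hRp' hcon' hO1 hO2 hsum
    apply h2
    refine htight2 _ _ 1 (r + 1) p' hRp' hO1 hO2 hsum ?_ ?_
    · intro hR
      refine IH _ (r + 1) _ ?_ hR (fun W _ H hH h => hnp' W H hH
        ((contrOdd W {v // v ∈ X} {v // v ∉ X} H p' hRp'.symm).1 hO2 hs2' h))
      rw [Fintype.card_option, hcX]
      omega
    · intro hR
      refine IH _ (r + 1) _ ?_ hR (fun W _ H hH h => hnp' W H hH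
        ((contrOdd W {v // v ∈ X} {v // v ∉ X} H p' hRp'.symm).2 hO1 hs1' h))
      rw [Fintype.card_option, hcX']
      omega

end Pool.Agent.W315.LB
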