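import Pool.Agent.H76R2.TY.Defs

/-!
# Reduction of Lovász's Hilbert basis conjecture to bricks: statements
-/

set_option autoImplicit false

namespace Pool.Agent.W315.LB

open Finset H76FC H76TX H76TY

/-- `H` is a minor of `G`, with branch sets that have an odd number of vertices -/
def OddMinor {W V : Type} (H : SimpleGraph W) (G : SimpleGraph V) : Prop :=
  ∃ f : W → Finset V, (∀ a b, a ≠ b → Disjoint (f a) (f b)) ∧ (∀ a, Odd (f a).card) ∧
    (∀ a, (G.induce (f a : Set V)).Connected) ∧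
    ∀ a b, H.Adj a b → ∃ x ∈ f a, ∃ y ∈ f b, G.Adj x y

/-- bricks: deleting any two vertices leaves a connected graph with a perfect matching -/
def Brick {W : Type} (H : SimpleGraph W) : Prop :=
  ∀ u v : W, u ≠ v → (H.induce {x | x ≠ u ∧ x ≠ v}).Connected ∧
    ∃ M : W → W, (∀ x, M (M x) = x) ∧ M u = v ∧ ∀ x, x ≠ u → x ≠ v → H.Adj x (M x)

/-- LB1: connected `r`-graphs without nontrivial tight cuts are 3-connected -/
def S_conn3 : Prop := ∀ (V : Type) [Fintype V] [DecidableEq V] (r : ℕ) (p : V → V → ℕ),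
  6 ≤ Fintype.card V → 1 ≤ r → RGraph r p → NoTight r p → (gr p).Connected →
  ∀ u v : V, u ≠ v → ((gr p).induce {x | x ≠ u ∧ x ≠ v}).Connected

/-- LB2: connected `r`-graphs without nontrivial tight cuts are bipartite or bicritical -/
def S_bicrit : Prop := ∀ (V : Type) [Fintype V] [DecidableEq V] (r : ℕ) (p : V → V → ℕ),
  6 ≤ Fintype.card V → 1 ≤ r → RGraph r p → NoTight r p → (gr p).Connected →
  (∃ Z : Finset V, Fintype.card V ≤ 2 * Z.card ∧ ∀ u ∈ Z, ∀ v ∈ Z, p u v = 0) ∨
  ∀ u v : V, u ≠ v → ∃ M : V → V, (∀ x, M (M x) = x) ∧ M u = v ∧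
    ∀ x, x ≠ u → x ≠ v → 0 < p x (M x)

/-- LB3: minors with odd branch sets in contractions -/
def S_contrOdd : Prop := ∀ (W U U' : Type) [Fintype U] [Fintype U'] (H : SimpleGraph W)
  (p : U ⊕ U' → U ⊕ U' → ℕ), (∀ x y, p x y = p y x) →
  (Odd (Fintype.card U') → (gr (fun u v => p (.inr u) (.inr v))).Connected →
    OddMinor H (gr (T1.contr (fun u v => p (.inl u) (.inl v)) (fun u => ∑ v, p (.inl u) (.inr v)))) →
    OddMinor H (gr p)) ∧
  (Odd (Fintype.card U) → (gr (fun u v => p (.inl u) (.inl v))).Connected →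
    OddMinor H (gr (T1.contr (fun u v => p (.inr u) (.inr v)) (fun u => ∑ v, p (.inr u) (.inl v)))) →
    OddMinor H (gr p))

end Pool.Agent.W315.LB
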